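import Pool.Agent.L5helper98.CG.Defs

/-!
# MP_e22585_pr, piece UNI: uniform moments of the total mass of the regularised chaos
-/

set_option autoImplicit false

open MeasureTheory ProbabilityTheory Filter Topology Set
open scoped ENNReal

namespace Pool.Agent.L5helper99.CG
open Pool.Agent.L5helper98.CG

noncomputable section

/-- the weights of the third number `a` -/
def pw (a N n : ℕ) (i : Fin n) : ℝ := if a * N ≤ (i : ℕ) ∧ (i : ℕ) < (a + 1) * N then 1 / (n : ℝ) else 0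

lemma pw_nonneg (a N n : ℕ) (i : Fin n) : 0 ≤ pw a N n i := by
  unfold pw; split_ifs <;> positivity

lemma pw_le (a N n : ℕ) (i : Fin n) : pw a N n i ≤ 1 / (n : ℝ) := by
  unfold pw; split_ifs
  · exact le_rfl
  · positivity

/-- the integrals of the indicator function of the third -/
lemma int_third (a N n : ℕ) (hN : 0 < N) (hn : n = 3 * N) (i : Fin n) :
    ∫ u in Ico (((i : ℕ) : ℝ) / (n : ℝ)) ((((i : ℕ) : ℝ) + 1) / (n : ℝ)),
      (Ico ((a : ℝ) / 3) (((a : ℝ) + 1) / 3)).indicator (fun _ => (1 : ℝ)) u = pw a N n i := by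
  have hn0 : (0 : ℝ) < n := by rw [hn]; positivity
  have hN0 : (0 : ℝ) < N := by positivity
  have hnN : (n : ℝ) = 3 * N := by rw [hn]; push_cast; ring
  unfold pw
  split_ifs with h
  · have h1 : (a : ℝ) * N ≤ (i : ℕ) := by exact_mod_cast h.1
    have h2 : ((i : ℕ) : ℝ) + 1 ≤ ((a : ℝ) + 1) * N := by
      have : (i : ℕ) + 1 ≤ (a + 1) * N := h.2
      exact_mod_cast this
    have hsub : Ico (((i : ℕ) : ℝ) / (n : ℝ)) ((((i : ℕ) : ℝ) + 1) / (n : ℝ)) ⊆
        Ico ((a : ℝ) / 3) (((a : ℝ) + 1) / 3) := by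
      apply Ico_subset_Ico
      · rw [div_le_div_iff₀ (by norm_num) hn0, hnN]; nlinarith
      · rw [div_le_div_iff₀ hn0 (by norm_num), hnN]; nlinarith
    rw [setIntegral_congr_fun (g := fun _ => (1 : ℝ)) measurableSet_Ico
      (fun u hu => by simp only [indicator_of_mem (hsub hu)])]
    rw [setIntegral_const, Measure.real, Real.volume_Ico, ENNReal.toReal_ofReal, smul_eq_mul, mul_one]
    · field_simp; ring
    · rw [sub_nonneg]; gcongr; linarith
  · have hd : ∀ u ∈ Ico (((i : ℕ) : ℝ) / (n : ℝ)) ((((i : ℕ) : ℝ) + 1) / (n : ℝ)),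
        u ∉ Ico ((a : ℝ) / 3) (((a : ℝ) + 1) / 3) := by
      intro u hu hu'
      apply h
      have h1 : ((i : ℕ) : ℝ) ≤ u * n := by
        have := hu.1; rwa [div_le_iff₀ hn0] at this
      have h2 : u * n < ((i : ℕ) : ℝ) + 1 := by
        have := hu.2; rwa [lt_div_iff₀ hn0] at this
      have h3 : (a : ℝ) * N ≤ u * n := by
        have := hu'.1; rw [hnN]; nlinarith
      have h4 : u * n < ((a : ℝ) + 1) * N := by
        have := hu'.2; rw [hnN]; nlinarith
      constructor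
      · have : ((a * N : ℕ) : ℝ) < ((i : ℕ) + 1 : ℕ) := by push_cast; linarith
        have := Nat.cast_lt.mp this
        omega
      · have : (((i : ℕ)) : ℝ) < (((a + 1) * N : ℕ) : ℝ) := by push_cast; linarith
        exact Nat.cast_lt.mp this
    rw [setIntegral_congr_fun (g := fun _ => (0 : ℝ)) measurableSet_Ico
      (fun u hu => by simp only [indicator_of_notMem (hd u hu)])]
    simp

/-- adding a constant keeps positive semidefiniteness -/
lemma psd_add {n : ℕ} {C : Matrix (Fin n) (Fin n) ℝ} (hC : C.PosSemidef) {b : ℝ} (hb : 0 ≤ b) :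
    Matrix.PosSemidef (fun i j : Fin n => C i j + b) := by
  have h1 : (Matrix.of (fun (_ : Fin n) (_ : Fin 1) => Real.sqrt b) *
      (Matrix.of (fun (_ : Fin n) (_ : Fin 1) => Real.sqrt b)).conjTranspose).PosSemidef :=
    Matrix.posSemidef_self_mul_conjTranspose _
  have h2 := hC.add h1
  have he : (fun i j : Fin n => C i j + b) = C + (Matrix.of (fun (_ : Fin n) (_ : Fin 1) => Real.sqrt b) *
      (Matrix.of (fun (_ : Fin n) (_ : Fin 1) => Real.sqrt b)).conjTranspose) := by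
    funext i j
    simp [Matrix.add_apply, Matrix.mul_apply, Real.mul_self_sqrt hb]
  rw [he]
  exact h2

/-- monotonicity in the weights -/
lemma gm_mono {n : ℕ} (C : Matrix (Fin n) (Fin n) ℝ) {p p' : Fin n → ℝ} (h0 : ∀ i, 0 ≤ p i)
    (h : ∀ i, p i ≤ p' i) {q : ℝ} (hq : 0 ≤ q) : gm C p q ≤ gm C p' q := by
  unfold gm
  apply lintegral_mono
  intro x
  apply ENNReal.ofReal_le_ofReal
  apply Real.rpow_le_rpow
  · exact Finset.sum_nonneg fun i _ => mul_nonneg (h0 i) (Real.exp_pos _).le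
  · exact Finset.sum_le_sum fun i _ => mul_le_mul_of_nonneg_right (h i) (Real.exp_pos _).le
  · exact hq

lemma dist_eq (i j : ℕ) : ((Nat.dist i j : ℕ) : ℝ) = |(i : ℝ) - j| := by
  rcases le_total i j with h | h
  · rw [Nat.dist_eq_sub_of_le h, Nat.cast_sub h, abs_sub_comm, abs_of_nonneg]
    have : (i : ℝ) ≤ j := by exact_mod_cast h
    linarith
  · rw [Nat.dist_comm, Nat.dist_eq_sub_of_le h, Nat.cast_sub h, abs_of_nonneg]
    have : (j : ℝ) ≤ i := by exact_mod_cast h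
    linarith

/-- two points of the same third -/
lemma dst_third (c : Bool) (a N n : ℕ) (hN : 0 < N) (hn : n = 3 * N) (i j : ℕ)
    (hi : a * N ≤ i ∧ i < (a + 1) * N) (hj : a * N ≤ j ∧ j < (a + 1) * N) :
    dst c ((i : ℝ) / n) ((j : ℝ) / n) = (Nat.dist i j : ℝ) / n ∧ Nat.dist i j < N := by
  have hn0 : (0 : ℝ) < n := by rw [hn]; positivity
  have hd : Nat.dist i j < N := by
    unfold Nat.dist
    have h1 : (a + 1) * N = a * N + N := by ring
    omega
  have he : |(i : ℝ) / n - (j : ℝ) / n| = (Nat.dist i j : ℝ) / n := by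
    rw [← sub_div, abs_div, abs_of_pos hn0, dist_eq]
  refine ⟨?_, hd⟩
  unfold dst
  rw [he]
  split_ifs
  · apply min_eq_left
    have h1 : ((Nat.dist i j : ℕ) : ℝ) < N := by exact_mod_cast hd
    have hnN : (n : ℝ) = 3 * N := by rw [hn]; push_cast; ring
    have h2 : (Nat.dist i j : ℝ) / n ≤ 1 / 3 := by
      rw [div_le_div_iff₀ hn0 (by norm_num), hnN]; linarith
    linarith
  · rfl

/-- comparison of the covariance with the model -/
lemma cv_le (hK : St_KLOG) {c : Bool} {r : ℝ → ℝ} {μ ε m K : ℝ} (hm : 0 < m) (hε : 0 < ε)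
    (hker : ∀ d : ℝ, 0 ≤ d → d < 1 → (c = true → d ≤ 1 / 2) →
      cv r μ ε d ≤ m * Real.log (1 / max d ε) + K)
    (a N n : ℕ) (hN : 0 < N) (hn : n = 3 * N) (hne : 1 / ε ≤ n) (i j : ℕ)
    (hi : a * N ≤ i ∧ i < (a + 1) * N) (hj : a * N ≤ j ∧ j < (a + 1) * N) :
    cv r μ ε (dst c ((i : ℝ) / n) ((j : ℝ) / n)) ≤ kap m n (Nat.dist i j) + (2 * m + K) := by
  obtain ⟨h1, h2⟩ := dst_third c a N n hN hn i j hi hj
  have hn0 : (0 : ℝ) < n := by rw [hn]; positivity
  have hnN : (n : ℝ) = 3 * N := by rw [hn]; push_cast; ring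
  have h2' : ((Nat.dist i j : ℕ) : ℝ) < N := by exact_mod_cast h2
  have hd0 : 0 ≤ (Nat.dist i j : ℝ) / n := by positivity
  have hd3 : (Nat.dist i j : ℝ) / n ≤ 1 / 3 := by
    rw [div_le_div_iff₀ hn0 (by norm_num), hnN]; linarith
  rw [h1]
  have h3 := hker ((Nat.dist i j : ℝ) / n) hd0 (by linarith) (fun _ => by linarith)
  have h4 : Real.log (1 / max ((Nat.dist i j : ℝ) / n) ε) ≤
      Real.log ((n : ℝ) / max ((Nat.dist i j : ℕ) : ℝ) 1) := by
    apply Real.log_le_log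
    · positivity
    · rw [div_le_div_iff₀ (by positivity) (by positivity), one_mul]
      have hmul : (n : ℝ) * max ((Nat.dist i j : ℝ) / n) ε =
          max ((Nat.dist i j : ℝ)) (n * ε) := by
        rw [mul_max_of_nonneg _ _ hn0.le, mul_div_cancel₀ _ hn0.ne']
      rw [hmul]
      apply max_le_max le_rfl
      rw [div_le_iff₀ hε] at hne
      linarith
  have h5 := hK.2.2.1 n (Nat.dist i j) (by omega) (by omega)
  rw [hK.2.2.2.2 m n (Nat.dist i j)]
  have h6 : m * Real.log (1 / max ((Nat.dist i j : ℝ) / n) ε) ≤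
      m * Real.log ((n : ℝ) / max ((Nat.dist i j : ℕ) : ℝ) 1) :=
    mul_le_mul_of_nonneg_left h4 hm.le
  have h7 : m * (Real.log ((n : ℝ) / max ((Nat.dist i j : ℕ) : ℝ) 1) - 2) ≤
      m * kap 1 n (Nat.dist i j) := mul_le_mul_of_nonneg_left h5 hm.le
  linarith

/-- the bound for `q > 1` -/
lemma bound_pos (hKAH : St_KAH) (hADD : St_ADD) (hKPSD : St_KPSD) (hK : St_KLOG)
    {c : Bool} {r : ℝ → ℝ} {μ ε m K : ℝ} (hm : 0 < m) (hK0 : 0 ≤ K) (hε : 0 < ε)
    (hker : ∀ d : ℝ, 0 ≤ d → d < 1 → (c = true → d ≤ 1 / 2) →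
      cv r μ ε d ≤ m * Real.log (1 / max d ε) + K)
    (a N n : ℕ) (ha : a < 3) (hN : 0 < N) (hn : n = 3 * N) (hne : 1 / ε ≤ n)
    (hpsd : Matrix.PosSemidef (fun i j : Fin n => cv r μ ε (dst c (((i : ℕ) : ℝ) / n) (((j : ℕ) : ℝ) / n))))
    (q : ℝ) (hq : 1 ≤ q) :
    gm (fun i j : Fin n => cv r μ ε (dst c (((i : ℕ) : ℝ) / n) (((j : ℕ) : ℝ) / n))) (pw a N n) q ≤
      ENNReal.ofReal (Real.exp ((2 * m + K) * (q * (q - 1)) / 2)) * aa m n q := by
  have hb : 0 ≤ 2 * m + K := by linarith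
  have h1 := (hKAH n _ _ hpsd (psd_add (hKPSD m n n hm.le) hb) (pw a N n) (pw_nonneg a N n)
    ⟨⟨a * N, by rw [hn]; nlinarith⟩, by
      unfold pw
      rw [if_pos ⟨le_rfl, by show a * N < (a + 1) * N; nlinarith⟩]
      have : (0 : ℝ) < n := by rw [hn]; positivity
      positivity⟩
    (fun i j hi hj => by
      have hi' : a * N ≤ (i : ℕ) ∧ (i : ℕ) < (a + 1) * N := by
        by_contra hcon
        unfold pw at hi
        rw [if_neg hcon] at hi
        exact lt_irrefl _ hi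
      have hj' : a * N ≤ (j : ℕ) ∧ (j : ℕ) < (a + 1) * N := by
        by_contra hcon
        unfold pw at hj
        rw [if_neg hcon] at hj
        exact lt_irrefl _ hj
      exact cv_le hK hm hε hker a N n hN hn hne i j hi' hj') q).1 (Or.inl hq)
  refine h1.trans ?_
  rw [hADD n _ (hKPSD m n n hm.le) _ hb _ (pw_nonneg a N n) q]
  unfold aa
  gcongr
  exact gm_mono _ (pw_nonneg a N n) (pw_le a N n) (by linarith)

/-- the bound for `q < 0` -/
lemma bound_neg (hKAH : St_KAH) (hADD : St_ADD) (hHOM : St_HOM) (hMARG : St_MARG)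
    (hKPSD : St_KPSD) (hK : St_KLOG)
    {c : Bool} {r : ℝ → ℝ} {μ ε m K : ℝ} (hm : 0 < m) (hK0 : 0 ≤ K) (hε : 0 < ε)
    (hker : ∀ d : ℝ, 0 ≤ d → d < 1 → (c = true → d ≤ 1 / 2) →
      cv r μ ε d ≤ m * Real.log (1 / max d ε) + K)
    (a N n : ℕ) (ha : a < 3) (hN : 0 < N) (hn : n = 3 * N) (hne : 1 / ε ≤ n)
    (hpsd : Matrix.PosSemidef (fun i j : Fin n => cv r μ ε (dst c (((i : ℕ) : ℝ) / n) (((j : ℕ) : ℝ) / n))))
    (q : ℝ) (hq : q < 0) :
    gm (fun i j : Fin n => cv r μ ε (dst c (((i : ℕ) : ℝ) / n) (((j : ℕ) : ℝ) / n))) (pw a N n) q ≤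
      ENNReal.ofReal (Real.exp ((2 * m + K + m * Real.log 3) * (q * (q - 1)) / 2)) *
        (ENNReal.ofReal ((1 / 3 : ℝ) ^ q) * aa m N q) := by
  have hlog : 0 ≤ m * Real.log 3 := mul_nonneg hm.le (Real.log_nonneg (by norm_num))
  have hb : 0 ≤ 2 * m + K + m * Real.log 3 := by linarith
  have haN : ∀ i : Fin N, a * N + (i : ℕ) < n := by
    intro i
    have := i.2
    rw [hn]
    nlinarith
  let f : Fin N → Fin n := fun i => ⟨a * N + i, haN i⟩
  have hf : Function.Injective f := by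
    intro i j hij
    have h1 : a * N + (i : ℕ) = a * N + (j : ℕ) := congrArg Fin.val hij
    exact Fin.ext (by omega)
  have hin : ∀ i : Fin N, a * N ≤ ((f i : Fin n) : ℕ) ∧ ((f i : Fin n) : ℕ) < (a + 1) * N := by
    intro i
    have := i.2
    constructor
    · show a * N ≤ a * N + (i : ℕ)
      omega
    · show a * N + (i : ℕ) < (a + 1) * N
      have h1 : (a + 1) * N = a * N + N := by ring
      omega
  have hn0 : (0 : ℝ) < n := by rw [hn]; positivity
  have hN0 : (0 : ℝ) < N := by positivity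
  have hnN : (n : ℝ) = 3 * N := by rw [hn]; push_cast; ring
  have h0 : ∀ i, i ∉ range f → pw a N n i = 0 := by
    intro i hi
    unfold pw
    rw [if_neg]
    rintro ⟨h1, h2⟩
    apply hi
    have h3 : (a + 1) * N = a * N + N := by ring
    refine ⟨⟨(i : ℕ) - a * N, by omega⟩, ?_⟩
    apply Fin.ext
    show a * N + ((i : ℕ) - a * N) = i
    omega
  rw [hMARG n N _ hpsd f hf (pw a N n) h0 q]
  have hpf : (fun i => pw a N n (f i)) = fun _ : Fin N => (1 / 3 : ℝ) * (1 / (N : ℝ)) := by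
    funext i
    unfold pw
    rw [if_pos (hin i), hnN]
    field_simp
  rw [hpf]
  have hp0 : ∀ i : Fin N, 0 ≤ (fun _ : Fin N => (1 / 3 : ℝ) * (1 / (N : ℝ))) i := by
    intro i; positivity
  have h1 := (hKAH N _ _ (hpsd.submatrix f) (psd_add (hKPSD m N N hm.le) hb)
    (fun _ => (1 / 3 : ℝ) * (1 / (N : ℝ))) hp0 ⟨⟨0, hN⟩, by positivity⟩
    (fun i j _ _ => by
      have h2 := cv_le hK hm hε hker a N n hN hn hne (f i) (f j) (hin i) (hin j)
      have h3 : Nat.dist ((f i : Fin n) : ℕ) ((f j : Fin n) : ℕ) = Nat.dist (i : ℕ) (j : ℕ) := by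
        show Nat.dist (a * N + (i : ℕ)) (a * N + (j : ℕ)) = _
        exact Nat.dist_add_add_left _ _ _
      rw [h3] at h2
      have h4 := hK.2.2.2.1 N n (Nat.dist (i : ℕ) (j : ℕ)) hN (by omega)
      have h5 : (n : ℝ) / N = 3 := by rw [hnN]; field_simp
      rw [h5] at h4
      rw [hK.2.2.2.2 m n] at h2
      show cv r μ ε (dst c ((((f i : Fin n) : ℕ) : ℝ) / n) ((((f j : Fin n) : ℕ) : ℝ) / n)) ≤
        kap m N (Nat.dist (i : ℕ) (j : ℕ)) + (2 * m + K + m * Real.log 3)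
      rw [hK.2.2.2.2 m N]
      have h6 : m * (kap 1 n (Nat.dist (i : ℕ) (j : ℕ)) - kap 1 N (Nat.dist (i : ℕ) (j : ℕ))) ≤
          m * Real.log 3 := mul_le_mul_of_nonneg_left h4 hm.le
      linarith) q).1 (Or.inr hq.le)
  refine h1.trans ?_
  rw [hADD N _ (hKPSD m N N hm.le) _ hb _ hp0 q]
  have h2 := hHOM N (Kap m N N) (1 / 3) (by norm_num) (fun _ => 1 / (N : ℝ))
    (fun _ => by positivity) q
  rw [h2]
  exact le_rfl

/-- the indicator function of the third number `a` -/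
def tw (a : ℕ) : ℝ → ℝ := (Ico ((a : ℝ) / 3) (((a : ℝ) + 1) / 3)).indicator fun _ => 1

lemma tw_meas (a : ℕ) : Measurable (tw a) := measurable_const.indicator measurableSet_Ico

lemma tw_nonneg (a : ℕ) (u : ℝ) : 0 ≤ tw a u := indicator_nonneg (fun _ _ => zero_le_one) u

lemma tw_le (a : ℕ) (u : ℝ) : tw a u ≤ 1 := by
  unfold tw
  by_cases h : u ∈ Ico ((a : ℝ) / 3) (((a : ℝ) + 1) / 3)
  · rw [indicator_of_mem h]
  · rw [indicator_of_notMem h]; norm_num

/-- the moments of the mass of a third, from the bound for the Riemann sums -/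
lemma third_of_grid (hRIE : St_RIE) (hFPSD : St_FPSD) {c : Bool} {r : ℝ → ℝ} {μ ε : ℝ} (hadm : Adm c r)
    (hμ : 0 < μ) (hε : 0 < ε) (hε2 : ε < 1 / 2) {Ω : Type} [MeasurableSpace Ω] {P : Measure Ω}
    [IsProbabilityMeasure P] {ω : ℝ → Ω → ℝ} (hf : Field c r μ ε P ω) (a : ℕ) (q : ℝ) (B : ℝ≥0∞)
    (hB : ∀ k N n : ℕ, N = 3 ^ k → 0 < N → n = 3 * N → n = 3 ^ (k + 1) → 1 / ε ≤ n →
      Matrix.PosSemidef (fun i j : Fin n => cv r μ ε (dst c (((i : ℕ) : ℝ) / n) (((j : ℕ) : ℝ) / n))) →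
      gm (fun i j : Fin n => cv r μ ε (dst c (((i : ℕ) : ℝ) / n) (((j : ℕ) : ℝ) / n))) (pw a N n) q ≤ B) :
    ∫⁻ x, ENNReal.ofReal (mass (tw a) ω x ^ q) ∂P ≤ B := by
  apply hRIE c r μ ε hadm hμ hε hε2 Ω P ω hf (tw a) (tw_meas a) (tw_nonneg a) ⟨1, tw_le a⟩ q B
  obtain ⟨k₀, hk₀⟩ := pow_unbounded_of_one_lt (1 / ε) (by norm_num : (1 : ℝ) < 3)
  filter_upwards [eventually_ge_atTop (k₀ + 1)] with k hk
  obtain ⟨k', rfl⟩ : ∃ k', k = k' + 1 := ⟨k - 1, by omega⟩
  have hN : 0 < 3 ^ k' := by positivity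
  have hn : 3 ^ (k' + 1) = 3 * 3 ^ k' := by ring
  have hc : (((3 ^ (k' + 1) : ℕ)) : ℝ) = (3 : ℝ) ^ (k' + 1) := by push_cast; ring
  have hne : 1 / ε ≤ ((3 ^ (k' + 1) : ℕ) : ℝ) := by
    rw [hc]
    have h1 : (3 : ℝ) ^ k₀ ≤ (3 : ℝ) ^ (k' + 1) := pow_le_pow_right₀ (by norm_num) (by omega)
    linarith
  have hpsd := hFPSD c r μ ε Ω P ω hf (3 ^ (k' + 1)) (fun i => ((i : ℕ) : ℝ) / ((3 ^ (k' + 1) : ℕ) : ℝ))
    (fun i => by
      have h0 : (0 : ℝ) < ((3 ^ (k' + 1) : ℕ) : ℝ) := by rw [hc]; positivity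
      refine ⟨by positivity, ?_⟩
      rw [div_lt_one h0]
      exact_mod_cast i.2)
  have h1 := hB k' (3 ^ k') (3 ^ (k' + 1)) rfl hN hn rfl hne hpsd
  have h2 : pw a (3 ^ k') (3 ^ (k' + 1)) = fun i : Fin (3 ^ (k' + 1)) =>
      ∫ u in Ico (((i : ℕ) : ℝ) / ((3 ^ (k' + 1) : ℕ) : ℝ)) ((((i : ℕ) : ℝ) + 1) / ((3 ^ (k' + 1) : ℕ) : ℝ)),
        tw a u := by
    funext i
    exact (int_third a (3 ^ k') (3 ^ (k' + 1)) hN hn i).symm
  rw [h2] at h1
  rw [hc] at h1
  exact h1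

/-- uniform bounds of the moments of the three thirds -/
lemma third_bound (hKAH : St_KAH) (hADD : St_ADD) (hHOM : St_HOM) (hMARG : St_MARG)
    (hKPSD : St_KPSD) (hK : St_KLOG) (hPOS : St_POS) (hNEG : St_NEG) (hRIE : St_RIE)
    (hFPSD : St_FPSD) (hKER : St_KER) (hBDD : St_BDD)
    {c : Bool} {r : ℝ → ℝ} {μ : ℝ} {Ω : ℝ → Type} [∀ ε, MeasurableSpace (Ω ε)]
    {P : ∀ ε, Measure (Ω ε)} {ω : ∀ ε, ℝ → Ω ε → ℝ} (hF : Fam c r μ Ω P ω) (q : ℝ)
    (hq : q < 0 ∨ (1 < q ∧ q < 2 / μ)) :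
    ∃ B : ℝ≥0∞, B < ∞ ∧ ∀ᶠ ε in 𝓝[>] (0 : ℝ), ∀ a : ℕ, a < 3 →
      ∫⁻ x, ENNReal.ofReal (mass (tw a) (ω ε) x ^ q) ∂(P ε) ≤ B := by
  have hμ := hF.mu_pos
  have hbd := hBDD c r μ hF.adm hμ
    (hF.field.mono fun ε h => ⟨Ω ε, inferInstance, P ε, hF.prob ε, ω ε, h⟩).frequently
  obtain ⟨hk, -⟩ := hKER c r μ hF.adm hμ hbd
  rcases hq with hq | ⟨hq1, hq2⟩
  · have hη : 0 < (2 - μ) / 2 := by have := hF.mu_lt; linarith
    obtain ⟨K, ε₀, hK0, hε₀, hε₀2, hker⟩ := hk ((2 - μ) / 2) hη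
    have hm : 0 < μ + (2 - μ) / 2 := by linarith
    obtain ⟨B, hB, hB2⟩ := hNEG (μ + (2 - μ) / 2) q hm (by have := hF.mu_lt; linarith) hq
    refine ⟨ENNReal.ofReal (Real.exp ((2 * (μ + (2 - μ) / 2) + K + (μ + (2 - μ) / 2) * Real.log 3) *
        (q * (q - 1)) / 2)) * (ENNReal.ofReal ((1 / 3 : ℝ) ^ q) * B), ?_, ?_⟩
    · exact ENNReal.mul_lt_top ENNReal.ofReal_lt_top (ENNReal.mul_lt_top ENNReal.ofReal_lt_top hB)
    · have hev : ∀ᶠ ε in 𝓝[>] (0 : ℝ), ε ∈ Ioo 0 ε₀ := Ioo_mem_nhdsGT hε₀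
      filter_upwards [hF.field, hev] with ε hf he a ha
      have := hF.prob ε
      apply third_of_grid hRIE hFPSD hF.adm hμ he.1 (by linarith [he.2]) hf a q
      intro k N n hN hN0 hn _ hne hpsd
      refine (bound_neg hKAH hADD hHOM hMARG hKPSD hK hm hK0 he.1
        (fun d hd1 hd2 hd3 => (hker ε he.1 he.2.le d hd1 hd2 hd3).2) a N n ha hN0 hn hne hpsd q hq).trans ?_
      gcongr
      rw [hN]
      exact hB2 k
  · have hq0 : 0 < q := by linarith
    have hμq : μ * q < 2 := by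
      rw [lt_div_iff₀ hμ] at hq2; linarith
    have hη : 0 < (2 / q - μ) / 2 := by
      have : μ < 2 / q := by rw [lt_div_iff₀ hq0]; exact hμq
      linarith
    obtain ⟨K, ε₀, hK0, hε₀, hε₀2, hker⟩ := hk ((2 / q - μ) / 2) hη
    have hm : 0 < μ + (2 / q - μ) / 2 := by linarith
    have hmq : (μ + (2 / q - μ) / 2) * q < 2 := by
      have : (μ + (2 / q - μ) / 2) * q = (μ * q + 2) / 2 := by field_simp; ring
      rw [this]; linarith
    obtain ⟨B, hB, hB2⟩ := hPOS (μ + (2 / q - μ) / 2) q hm hq1 hmq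
    refine ⟨ENNReal.ofReal (Real.exp ((2 * (μ + (2 / q - μ) / 2) + K) * (q * (q - 1)) / 2)) * B, ?_, ?_⟩
    · exact ENNReal.mul_lt_top ENNReal.ofReal_lt_top hB
    · have hev : ∀ᶠ ε in 𝓝[>] (0 : ℝ), ε ∈ Ioo 0 ε₀ := Ioo_mem_nhdsGT hε₀
      filter_upwards [hF.field, hev] with ε hf he a ha
      have := hF.prob ε
      apply third_of_grid hRIE hFPSD hF.adm hμ he.1 (by linarith [he.2]) hf a q
      intro k N n hN hN0 hn hn2 hne hpsd
      refine (bound_pos hKAH hADD hKPSD hK hm hK0 he.1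
        (fun d hd1 hd2 hd3 => (hker ε he.1 he.2.le d hd1 hd2 hd3).2) a N n ha hN0 hn hne hpsd q hq1.le).trans ?_
      gcongr
      rw [hn2]
      exact hB2 (k + 1)

lemma mass_tw {Ω : Type} (ω : ℝ → Ω → ℝ) (x : Ω) (a : ℕ) (ha : a < 3) :
    mass (tw a) ω x = ∫ u in Ico ((a : ℝ) / 3) (((a : ℝ) + 1) / 3), Real.exp (ω u x) := by
  have hsub : Ico ((a : ℝ) / 3) (((a : ℝ) + 1) / 3) ⊆ Ico (0 : ℝ) 1 := by
    have ha' : (a : ℝ) + 1 ≤ 3 := by exact_mod_cast ha
    apply Ico_subset_Ico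
    · positivity
    · linarith
  unfold mass tw
  have h1 : (fun u : ℝ => (Ico ((a : ℝ) / 3) (((a : ℝ) + 1) / 3)).indicator (fun _ => (1 : ℝ)) u *
      Real.exp (ω u x)) = (Ico ((a : ℝ) / 3) (((a : ℝ) + 1) / 3)).indicator (fun u => Real.exp (ω u x)) := by
    funext u
    by_cases h : u ∈ Ico ((a : ℝ) / 3) (((a : ℝ) + 1) / 3)
    · rw [indicator_of_mem h, indicator_of_mem h, one_mul]
    · rw [indicator_of_notMem h, indicator_of_notMem h, zero_mul]
  rw [h1, setIntegral_indicator measurableSet_Ico, inter_eq_right.mpr hsub]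

lemma mass_split {Ω : Type} (ω : ℝ → Ω → ℝ) (x : Ω)
    (hi : IntegrableOn (fun u => Real.exp (ω u x)) (Ico 0 1)) :
    mass (fun _ => 1) ω x = mass (tw 0) ω x + mass (tw 1) ω x + mass (tw 2) ω x := by
  rw [mass_tw ω x 0 (by norm_num), mass_tw ω x 1 (by norm_num), mass_tw ω x 2 (by norm_num)]
  unfold mass
  simp only [one_mul]
  have h1 : Ico (0 : ℝ) 1 = (Ico ((0 : ℕ) / 3 : ℝ) (((0 : ℕ) + 1 : ℝ) / 3) ∪
      Ico ((1 : ℕ) / 3 : ℝ) (((1 : ℕ) + 1 : ℝ) / 3)) ∪ Ico ((2 : ℕ) / 3 : ℝ) (((2 : ℕ) + 1 : ℝ) / 3) := by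
    ext u
    simp only [mem_union, mem_Ico]
    push_cast
    constructor
    · rintro ⟨h1, h2⟩
      rcases lt_or_ge u (1 / 3) with h | h
      · left; left; constructor <;> linarith
      · rcases lt_or_ge u (2 / 3) with h' | h'
        · left; right; constructor <;> linarith
        · right; constructor <;> linarith
    · rintro ((⟨h1, h2⟩ | ⟨h1, h2⟩) | ⟨h1, h2⟩) <;> constructor <;> linarith
  have hi2 := hi
  rw [h1] at hi2
  rw [h1, setIntegral_union, setIntegral_union]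
  · rw [Set.disjoint_left]
    intro u h1 h2
    simp only [mem_Ico] at h1 h2
    push_cast at h1 h2
    linarith [h1.2, h2.1]
  · exact measurableSet_Ico
  · exact hi2.mono_set (subset_union_left.trans subset_union_left)
  · exact hi2.mono_set (subset_union_right.trans subset_union_left)
  · rw [Set.disjoint_left]
    intro u h1 h2
    simp only [mem_union, mem_Ico] at h1 h2
    push_cast at h1 h2
    rcases h1 with h1 | h1 <;> linarith [h1.2, h2.1]
  · exact measurableSet_Ico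
  · exact hi2.mono_set subset_union_left
  · exact hi2.mono_set subset_union_right

lemma mass_nonneg {Ω : Type} (ω : ℝ → Ω → ℝ) (x : Ω) (a : ℕ) : 0 ≤ mass (tw a) ω x :=
  integral_nonneg fun u => mul_nonneg (tw_nonneg a u) (Real.exp_pos _).le

lemma pow_three {q A B C : ℝ} (hq : 0 ≤ q) (hA : 0 ≤ A) (hB : 0 ≤ B) (hC : 0 ≤ C) :
    (A + B + C) ^ q ≤ 3 ^ q * (A ^ q + B ^ q + C ^ q) := by
  have hAq := Real.rpow_nonneg hA q
  have hBq := Real.rpow_nonneg hB q
  have hCq := Real.rpow_nonneg hC q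
  have key : ∀ M : ℝ, 0 ≤ M → A ≤ M → B ≤ M → C ≤ M → (A + B + C) ^ q ≤ 3 ^ q * M ^ q := by
    intro M hM h1 h2 h3
    rw [← Real.mul_rpow (by norm_num) hM]
    exact Real.rpow_le_rpow (by positivity) (by linarith) hq
  have h3 : (0 : ℝ) ≤ 3 ^ q := by positivity
  rcases le_total A B with h | h
  · rcases le_total B C with h' | h'
    · exact (key C hC (h.trans h') h' le_rfl).trans (mul_le_mul_of_nonneg_left (by linarith) h3)
    · exact (key B hB h le_rfl h').trans (mul_le_mul_of_nonneg_left (by linarith) h3)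
  · rcases le_total A C with h' | h'
    · exact (key C hC h' (h.trans h') le_rfl).trans (mul_le_mul_of_nonneg_left (by linarith) h3)
    · exact (key A hA le_rfl h h').trans (mul_le_mul_of_nonneg_left (by linarith) h3)

/-- UNI -/
theorem UNI_holds (hKAH : St_KAH) (hADD : St_ADD) (hHOM : St_HOM) (hMARG : St_MARG)
    (hKPSD : St_KPSD) (hK : St_KLOG) (hPOS : St_POS) (hNEG : St_NEG) (hRIE : St_RIE)
    (hFPSD : St_FPSD) (hKER : St_KER) (hBDD : St_BDD) (hPOSW : St_POSW) : St_UNI := by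
  intro c r μ Ω _ P ω hF q hq
  obtain ⟨B, hB, hev⟩ := third_bound hKAH hADD hHOM hMARG hKPSD hK hPOS hNEG hRIE hFPSD hKER hBDD hF q hq
  have hthird : ((Ico (1 / 3 : ℝ) (2 / 3)).indicator fun _ => (1 : ℝ)) = tw 1 := by
    unfold tw; norm_num
  have hev2 : ∀ᶠ ε in 𝓝[>] (0 : ℝ), ε ∈ Ioo (0 : ℝ) (1 / 2) := Ioo_mem_nhdsGT (by norm_num)
  rw [hthird]
  refine ⟨ENNReal.ofReal (3 ^ q) * (B + B + B) + B, ?_, ?_⟩
  · exact ENNReal.add_lt_top.mpr ⟨ENNReal.mul_lt_top ENNReal.ofReal_lt_top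
      (ENNReal.add_lt_top.mpr ⟨ENNReal.add_lt_top.mpr ⟨hB, hB⟩, hB⟩), hB⟩
  filter_upwards [hev, hev2, hF.field] with ε h1 he hf
  have := hF.prob ε
  obtain ⟨hint, hmeas, hpos, -⟩ := hPOSW c r μ ε hF.adm hF.mu_pos he.1 he.2 (Ω ε) (P ε) (ω ε) hf
  refine ⟨?_, (h1 1 (by norm_num)).trans le_add_self⟩
  rcases hq with hq | ⟨hq1, -⟩
  · refine (le_trans (lintegral_mono_ae ?_) (h1 1 (by norm_num))).trans le_add_self
    filter_upwards [hint, hpos (1 / 3) (2 / 3) (by norm_num) (by norm_num) (by norm_num)] with x hx hx2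
    apply ENNReal.ofReal_le_ofReal
    have h2 : 0 < mass (tw 1) (ω ε) x := by
      rw [mass_tw (ω ε) x 1 (by norm_num)]
      convert hx2 using 3
      norm_num
    refine Real.rpow_le_rpow_of_nonpos h2 ?_ hq.le
    rw [mass_split (ω ε) x hx]
    have h3 := mass_nonneg (ω ε) x 0
    have h4 := mass_nonneg (ω ε) x 2
    linarith
  · refine le_trans ?_ le_self_add
    calc ∫⁻ x, ENNReal.ofReal (mass (fun _ => 1) (ω ε) x ^ q) ∂(P ε)
        ≤ ∫⁻ x, ENNReal.ofReal (3 ^ q) * (ENNReal.ofReal (mass (tw 0) (ω ε) x ^ q) +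
            ENNReal.ofReal (mass (tw 1) (ω ε) x ^ q) + ENNReal.ofReal (mass (tw 2) (ω ε) x ^ q)) ∂(P ε) := by
          apply lintegral_mono_ae
          filter_upwards [hint] with x hx
          rw [mass_split (ω ε) x hx]
          have h0 := mass_nonneg (ω ε) x 0
          have h0' := mass_nonneg (ω ε) x 1
          have h0'' := mass_nonneg (ω ε) x 2
          rw [← ENNReal.ofReal_add (Real.rpow_nonneg h0 q) (Real.rpow_nonneg h0' q),
            ← ENNReal.ofReal_add (add_nonneg (Real.rpow_nonneg h0 q) (Real.rpow_nonneg h0' q))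
              (Real.rpow_nonneg h0'' q), ← ENNReal.ofReal_mul (by positivity)]
          exact ENNReal.ofReal_le_ofReal (pow_three (by linarith) h0 h0' h0'')
      _ = ENNReal.ofReal (3 ^ q) * (∫⁻ x, ENNReal.ofReal (mass (tw 0) (ω ε) x ^ q) ∂(P ε) +
            ∫⁻ x, ENNReal.ofReal (mass (tw 1) (ω ε) x ^ q) ∂(P ε) +
            ∫⁻ x, ENNReal.ofReal (mass (tw 2) (ω ε) x ^ q) ∂(P ε)) := by
          have hm : ∀ a : ℕ, Measurable fun x => ENNReal.ofReal (mass (tw a) (ω ε) x ^ q) := by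
            intro a
            exact ENNReal.measurable_ofReal.comp ((hmeas (tw a) (tw_meas a)).pow_const q)
          have hm01 : Measurable fun x => ENNReal.ofReal (mass (tw 0) (ω ε) x ^ q) +
              ENNReal.ofReal (mass (tw 1) (ω ε) x ^ q) := (hm 0).add (hm 1)
          have hm012 : Measurable fun x => ENNReal.ofReal (mass (tw 0) (ω ε) x ^ q) +
              ENNReal.ofReal (mass (tw 1) (ω ε) x ^ q) +
              ENNReal.ofReal (mass (tw 2) (ω ε) x ^ q) := hm01.add (hm 2)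
          rw [lintegral_const_mul _ hm012, lintegral_add_left hm01, lintegral_add_left (hm 0)]
      _ ≤ ENNReal.ofReal (3 ^ q) * (B + B + B) := by
          gcongr
          · exact h1 0 (by norm_num)
          · exact h1 1 (by norm_num)
          · exact h1 2 (by norm_num)

end

end Pool.Agent.L5helper99.CG
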