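import Pool.Agent.L5helper98.CG.Defs

/-!
# MP_e22585_pr, piece POSW: the mass is positive and finite, with the right mean
-/

set_option autoImplicit false

open MeasureTheory ProbabilityTheory Filter Topology Set
open scoped ENNReal

namespace Pool.Agent.L5helper99.CG
open Pool.Agent.L5helper98.CG

noncomputable section

lemma lint_exp {c : Bool} {r : ℝ → ℝ} {μ ε : ℝ} {Ω : Type} [MeasurableSpace Ω] {P : Measure Ω}
    [IsProbabilityMeasure P] {ω : ℝ → Ω → ℝ} (hf : Field c r μ ε P ω) {u : ℝ} (hu : u ∈ Ico (0 : ℝ) 1) :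
    ∫⁻ x, ENNReal.ofReal (Real.exp (ω u x)) ∂P = 1 := by
  have hg : HasGaussianLaw (ω u) P := hf.gauss.hasGaussianLaw_eval ⟨u, hu⟩
  have hmap := hg.map_eq_gaussianReal
  have hm : Measurable (ω u) := hf.meas.comp (measurable_const.prodMk measurable_id)
  have h1 := mgf_gaussianReal hmap 1
  have hv : 0 ≤ Var[ω u; P] := variance_nonneg _ _
  have hmean := hf.mean u hu
  rw [hmean, Real.coe_toNNReal _ hv] at h1
  unfold mgf at h1
  simp only [one_mul, mul_one, one_pow] at h1
  have h2 : -(Var[ω u; P]) / 2 + Var[ω u; P] / 2 = 0 := by ring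
  rw [h2, Real.exp_zero] at h1
  have hint : Integrable (fun x => Real.exp (ω u x)) P := by
    by_contra hcon
    rw [integral_undef hcon] at h1
    exact zero_ne_one h1
  rw [← ofReal_integral_eq_lintegral_ofReal hint (Eventually.of_forall fun x => (Real.exp_pos _).le), h1,
    ENNReal.ofReal_one]

lemma meas_joint {c : Bool} {r : ℝ → ℝ} {μ ε : ℝ} {Ω : Type} [MeasurableSpace Ω] {P : Measure Ω}
    {ω : ℝ → Ω → ℝ} (hf : Field c r μ ε P ω) {w : ℝ → ℝ} (hw : Measurable w) :
    Measurable fun p : Ω × ℝ => w p.2 * Real.exp (ω p.2 p.1) :=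
  (hw.comp measurable_snd).mul
    (Real.measurable_exp.comp (hf.meas.comp (measurable_snd.prodMk measurable_fst)))

lemma lint_mass {c : Bool} {r : ℝ → ℝ} {μ ε : ℝ} {Ω : Type} [MeasurableSpace Ω] {P : Measure Ω}
    [IsProbabilityMeasure P] {ω : ℝ → Ω → ℝ} (hf : Field c r μ ε P ω) {w : ℝ → ℝ} (hw : Measurable w)
    (hw0 : ∀ u, 0 ≤ w u) :
    ∫⁻ x, (∫⁻ u in Ico (0 : ℝ) 1, ENNReal.ofReal (w u * Real.exp (ω u x))) ∂P =
      ∫⁻ u in Ico (0 : ℝ) 1, ENNReal.ofReal (w u) := by
  rw [lintegral_lintegral_swap]
  · apply setLIntegral_congr_fun measurableSet_Ico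
    intro u hu
    have h1 : ∀ x, ENNReal.ofReal (w u * Real.exp (ω u x)) =
        ENNReal.ofReal (w u) * ENNReal.ofReal (Real.exp (ω u x)) := fun x => ENNReal.ofReal_mul (hw0 u)
    simp only [h1]
    have hm : Measurable (ω u) := hf.meas.comp (measurable_const.prodMk measurable_id)
    have hm2 : Measurable fun x => ENNReal.ofReal (Real.exp (ω u x)) :=
      ENNReal.measurable_ofReal.comp (Real.measurable_exp.comp hm)
    rw [lintegral_const_mul _ hm2, lint_exp hf hu, mul_one]
  · exact (ENNReal.measurable_ofReal.comp (meas_joint hf hw)).aemeasurable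

/-- POSW -/
theorem POSW_holds : St_POSW := by
  intro c r μ ε _ _ _ _ Ω _ P _ ω hf
  have hint : ∀ᵐ x ∂P, IntegrableOn (fun u => Real.exp (ω u x)) (Ico 0 1) := by
    have h1 := lint_mass hf (w := fun _ => 1) measurable_const (fun _ => zero_le_one)
    simp only [one_mul, ENNReal.ofReal_one] at h1
    have h2 : ∫⁻ x, (∫⁻ u in Ico (0 : ℝ) 1, ENNReal.ofReal (Real.exp (ω u x))) ∂P ≠ ∞ := by
      rw [h1]
      simp
    have hmeas : Measurable fun x => ∫⁻ u in Ico (0 : ℝ) 1, ENNReal.ofReal (Real.exp (ω u x)) := by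
      have := meas_joint hf (w := fun _ => 1) measurable_const
      simp only [one_mul] at this
      exact (ENNReal.measurable_ofReal.comp this).lintegral_prod_right'
    filter_upwards [ae_lt_top hmeas h2] with x hx
    have hmx : Measurable fun u => Real.exp (ω u x) :=
      Real.measurable_exp.comp (hf.meas.comp (measurable_id.prodMk measurable_const))
    refine ⟨hmx.aestronglyMeasurable, ?_⟩
    rw [hasFiniteIntegral_iff_ofReal (Eventually.of_forall fun u => (Real.exp_pos _).le)]
    exact hx
  refine ⟨hint, ?_, ?_, ?_⟩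
  · intro w hw
    have h1 := (meas_joint hf hw).stronglyMeasurable
    exact (h1.integral_prod_right' (ν := volume.restrict (Ico (0 : ℝ) 1))).measurable
  · intro a b ha hab hb
    filter_upwards [hint] with x hx
    have hx' : IntegrableOn (fun u => Real.exp (ω u x)) (Ico a b) :=
      hx.mono_set (Ico_subset_Ico ha hb)
    rw [setIntegral_pos_iff_support_of_nonneg_ae (Eventually.of_forall fun u => (Real.exp_pos _).le) hx']
    have hs : Function.support (fun u => Real.exp (ω u x)) = univ := by
      ext u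
      simp [Real.exp_ne_zero]
    rw [hs, univ_inter, Real.volume_Ico, ENNReal.ofReal_pos]
    linarith
  · intro w hw hw0 hwK
    obtain ⟨K, hK⟩ := hwK
    have hwi : IntegrableOn w (Ico (0 : ℝ) 1) := by
      apply Measure.integrableOn_of_bounded (M := K)
      · simp
      · exact hw.aestronglyMeasurable
      · exact Eventually.of_forall fun u => by rw [Real.norm_eq_abs, abs_of_nonneg (hw0 u)]; exact hK u
    rw [ofReal_integral_eq_lintegral_ofReal hwi (Eventually.of_forall hw0), ← lint_mass hf hw hw0]
    apply lintegral_congr_ae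
    filter_upwards [hint] with x hx
    unfold mass
    rw [ofReal_integral_eq_lintegral_ofReal]
    · have hmx : Measurable fun u => Real.exp (ω u x) :=
        Real.measurable_exp.comp (hf.meas.comp (measurable_id.prodMk measurable_const))
      refine Integrable.mono' (hx.const_mul K) (hw.mul hmx).aestronglyMeasurable
        (Eventually.of_forall fun u => ?_)
      rw [Real.norm_eq_abs, abs_of_nonneg (mul_nonneg (hw0 u) (Real.exp_pos _).le)]
      exact mul_le_mul_of_nonneg_right (hK u) (Real.exp_pos _).le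
    · exact Eventually.of_forall fun u => mul_nonneg (hw0 u) (Real.exp_pos _).le

end

end Pool.Agent.L5helper99.CG
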